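import Mathlib
import Pool.Agent.Results.MP_7c03a7_pr.DimGtOne

set_option autoImplicit false

open MeasureTheory ProbabilityTheory
open scoped ENNReal NNReal Pointwise

namespace Pool.Agent.Results.MP_9aa340_pr.FiniteThreshold

/-! ### Definitions used in the statement -/

/-- A generating measure on the group `Γ`: a probability measure on `Γ` (given by its mass
function) which is symmetric and whose support generates `Γ` as a group. -/
structure GeneratingMeasure (Γ : Type*) [Group Γ] where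
  /-- the probability mass function -/
  mass : PMF Γ
  /-- symmetry -/
  symm : ∀ g : Γ, mass g = mass g⁻¹
  /-- the support generates the group -/
  gen : Subgroup.closure mass.support = ⊤

/-- The unordered pairs `{g, h}` of distinct elements of `Γ`. -/
abbrev Pair (Γ : Type*) : Type _ := {e : Sym2 Γ // ¬ e.IsDiag}

/-- The weight `μ (g⁻¹ h)` of the pair `{g, h}`. -/
noncomputable def weight {Γ : Type*} [Group Γ] (μ : GeneratingMeasure Γ) : Sym2 Γ → ℝ≥0 :=
  Sym2.lift ⟨fun g h => (μ.mass (g⁻¹ * h)).toNNReal, fun g h => by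
    show (μ.mass (g⁻¹ * h)).toNNReal = (μ.mass (h⁻¹ * g)).toNNReal
    rw [μ.symm (g⁻¹ * h), mul_inv_rev, inv_inv]⟩

/-- The law of the random multigraph `Γ_μ(t)`: the multiplicities of the pairs are independent,
and the multiplicity of `{g, h}` is Poisson with mean `t μ (g⁻¹ h)`. -/
noncomputable def law {Γ : Type*} [Group Γ] (μ : GeneratingMeasure Γ) (t : ℝ≥0) :
    Measure (Pair Γ → ℕ) :=
  Measure.infinitePi fun e : Pair Γ => poissonMeasure (t * weight μ e)

/-- The graph obtained from the multiplicities `ω` by merging parallel edges: two distinct elements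
are joined when the multiplicity of the pair is positive. -/
def openGraph {Γ : Type*} (ω : Pair Γ → ℕ) : SimpleGraph Γ where
  Adj g h := ∃ hne : ¬ (s(g, h)).IsDiag, 0 < ω ⟨s(g, h), hne⟩
  symm := ⟨fun g h hgh => by
    obtain ⟨hne, hω⟩ := hgh
    have e : (s(h, g) : Sym2 Γ) = s(g, h) := Sym2.eq_swap
    refine ⟨by rwa [e], ?_⟩
    have : (⟨s(h, g), by rwa [e]⟩ : Pair Γ) = ⟨s(g, h), hne⟩ := Subtype.ext e
    rw [this]; exact hω⟩
  loopless := ⟨fun g hg => hg.1 (Sym2.mk_isDiag_iff.2 rfl)⟩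

/-- The graph has an infinite connected component. -/
def HasInfiniteComponent {V : Type*} (G : SimpleGraph V) : Prop :=
  ∃ C : G.ConnectedComponent, C.supp.Infinite

/-- The critical parameter `λ_c(μ)`: the supremum in `[0, ∞]` of the `t > 0` for which `Γ_μ(t)`
has an infinite connected component with probability zero. -/
noncomputable def criticalParameter {Γ : Type*} [Group Γ] (μ : GeneratingMeasure Γ) : ℝ≥0∞ :=
  sSup {s : ℝ≥0∞ | ∃ t : ℝ≥0, 0 < t ∧
    law μ t {ω | HasInfiniteComponent (openGraph ω)} = 0 ∧ s = (t : ℝ≥0∞)}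

/-! ### The measure -/

section construction

variable {Γ : Type*} [Group Γ]

/-- the weights of the scales -/
noncomputable def w (n : ℕ) : ℝ≥0∞ := ENNReal.ofReal (1 / 4 * (3 / 4) ^ n)

theorem tsum_w : ∑' n, w n = 1 := by
  unfold w
  rw [← ENNReal.ofReal_tsum_of_nonneg (fun n => by positivity)
    ((summable_geometric_of_lt_one (by norm_num) (by norm_num)).mul_left _), tsum_mul_left,
    tsum_geometric_of_lt_one (by norm_num) (by norm_num)]
  norm_num

/-- the law of the scale -/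
noncomputable def scale : PMF ℕ := ⟨w, by rw [← tsum_w]; exact ENNReal.summable.hasSum⟩

theorem scale_apply (n : ℕ) : scale n = w n := rfl

theorem w_ne_zero (n : ℕ) : w n ≠ 0 := by
  unfold w
  rw [Ne, ENNReal.ofReal_eq_zero, not_le]
  positivity

theorem exists_sets [Countable Γ] [Infinite Γ] :
    ∃ B : ℕ → Finset Γ, (∀ n, (∀ g ∈ B n, g⁻¹ ∈ B n)) ∧ (∀ n, 2 ^ (n + 1) ≤ (B n).card) ∧
      ∀ g : Γ, ∃ n, g ∈ B n := by
  classical
  obtain ⟨f, hf⟩ := exists_surjective_nat Γ
  choose T hT using fun n : ℕ => Infinite.exists_subset_card_eq Γ (2 ^ (n + 1))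
  refine ⟨fun n => (T n ∪ {f n}) ∪ (T n ∪ {f n})⁻¹, fun n g hg => ?_, fun n => ?_, fun g => ?_⟩
  · rw [Finset.mem_union] at hg ⊢
    rcases hg with hg | hg
    · right; rwa [Finset.mem_inv', inv_inv]
    · left; rwa [Finset.mem_inv'] at hg
  · rw [← hT n]
    exact Finset.card_le_card (Finset.subset_union_left.trans Finset.subset_union_left)
  · obtain ⟨n, rfl⟩ := hf g
    exact ⟨n, by simp⟩

variable (B : ℕ → Finset Γ) (hB : ∀ n, (B n).Nonempty)

/-- the mass function -/
noncomputable def ms : PMF Γ := scale.bind fun n => PMF.uniformOfFinset (B n) (hB n)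

omit [Group Γ] in
theorem le_ms (n : ℕ) {g : Γ} (hg : g ∈ B n) : w n * ((B n).card : ℝ≥0∞)⁻¹ ≤ ms B hB g := by
  unfold ms
  rw [PMF.bind_apply]
  refine le_trans (le_of_eq ?_) (ENNReal.le_tsum n)
  rw [scale_apply, PMF.uniformOfFinset_apply_of_mem _ hg]

omit [Group Γ] in
theorem ms_ne_zero (n : ℕ) {g : Γ} (hg : g ∈ B n) : ms B hB g ≠ 0 := by
  intro h
  have := le_ms B hB n hg
  rw [h, nonpos_iff_eq_zero, mul_eq_zero] at this
  rcases this with h | h
  · exact w_ne_zero n h
  · exact ENNReal.natCast_ne_top _ (ENNReal.inv_eq_zero.1 h)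

theorem ms_inv (hinv : ∀ n, (∀ g ∈ B n, g⁻¹ ∈ B n)) (g : Γ) : ms B hB g = ms B hB g⁻¹ := by
  classical
  unfold ms
  rw [PMF.bind_apply, PMF.bind_apply]
  refine tsum_congr fun n => ?_
  congr 1
  rw [PMF.uniformOfFinset_apply, PMF.uniformOfFinset_apply]
  have : g ∈ B n ↔ g⁻¹ ∈ B n := ⟨hinv n g, fun h => by simpa using hinv n _ h⟩
  simp only [this]

theorem boundary_ge [DecidableEq Γ] (S : Finset Γ) (n : ℕ) (hn : 2 * S.card ≤ (B n).card)
    (g : Γ) :
    w n * 2⁻¹ ≤ ∑' h : {h : Γ // h ∉ S}, ms B hB (g⁻¹ * (h : Γ)) := by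
  set T : Finset Γ := (B n).image (fun b => g * b) \ S with hT
  have hcard : (B n).card ≤ 2 * T.card := by
    have h1 : ((B n).image (fun b => g * b)).card = (B n).card :=
      Finset.card_image_of_injective _ (mul_right_injective g)
    have h2 := Finset.le_card_sdiff S ((B n).image (fun b => g * b))
    rw [h1, ← hT] at h2
    omega
  have hpos : 0 < (B n).card := Finset.card_pos.2 (hB n)
  have e1 := tsum_subtype {y | y ∉ S} (fun y => ms B hB (g⁻¹ * y))
  rw [show (∑' h : {h : Γ // h ∉ S}, ms B hB (g⁻¹ * (h : Γ))) =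
    ∑' h : ({y | y ∉ S} : Set Γ), ms B hB (g⁻¹ * (h : Γ)) from rfl, e1]
  refine le_trans ?_ (ENNReal.sum_le_tsum T)
  have h3 : ∀ y ∈ T, w n * ((B n).card : ℝ≥0∞)⁻¹ ≤
      ({y | y ∉ S} : Set Γ).indicator (fun y => ms B hB (g⁻¹ * y)) y := by
    intro y hy
    rw [hT, Finset.mem_sdiff, Finset.mem_image] at hy
    obtain ⟨⟨b, hb, rfl⟩, hyS⟩ := hy
    rw [Set.indicator_of_mem (by exact hyS)]
    refine le_ms B hB n ?_
    simpa using hb
  refine le_trans ?_ (Finset.sum_le_sum h3)
  rw [Finset.sum_const, nsmul_eq_mul]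
  have hc : (((B n).card : ℕ) : ℝ≥0∞) ≠ 0 := by exact_mod_cast hpos.ne'
  have h4 : (2 : ℝ≥0∞)⁻¹ ≤ (T.card : ℝ≥0∞) * ((B n).card : ℝ≥0∞)⁻¹ := by
    rw [← div_eq_mul_inv, ENNReal.le_div_iff_mul_le (Or.inl hc) (Or.inl (ENNReal.natCast_ne_top _)),
      mul_comm, ← div_eq_mul_inv, ENNReal.div_le_iff_le_mul (Or.inl two_ne_zero)
      (Or.inl ENNReal.ofNat_ne_top)]
    rw [mul_comm]
    exact_mod_cast hcard
  calc w n * 2⁻¹ ≤ w n * ((T.card : ℝ≥0∞) * ((B n).card : ℝ≥0∞)⁻¹) := by gcongr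
    _ = _ := by ring

end construction

/-- **Every countably infinite group admits a generating measure whose critical parameter for
long-range percolation is finite.** -/
theorem result (Γ : Type*) [Group Γ] [Countable Γ] [Infinite Γ] :
    ∃ μ : GeneratingMeasure Γ, criticalParameter μ < ⊤ := by
  classical
  obtain ⟨B, hinv, hcard, hcov⟩ := exists_sets (Γ := Γ)
  have hB : ∀ n, (B n).Nonempty := fun n =>
    Finset.card_pos.1 (lt_of_lt_of_le (by positivity) (hcard n))
  have hgen : Subgroup.closure (ms B hB).support = ⊤ := by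
    rw [eq_top_iff]
    intro g _
    obtain ⟨n, hn⟩ := hcov g
    exact Subgroup.subset_closure ((PMF.mem_support_iff _ _).2 (ms_ne_zero B hB n hn))
  let ν : Pool.Agent.Results.MP_7c03a7_pr.DimGtOne.GeneratingMeasure Γ :=
    ⟨ms B hB, ms_inv B hB hinv, hgen⟩
  refine ⟨⟨ms B hB, ms_inv B hB hinv, hgen⟩, ?_⟩
  have key : Pool.Agent.Results.MP_7c03a7_pr.DimGtOne.criticalParameter ν < ⊤ := by
    apply Pool.Agent.Results.MP_7c03a7_pr.DimGtOne.result
    have h12 : (1 : ℝ≥0∞) < ENNReal.ofReal 2 := by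
      rw [← ENNReal.ofReal_one]
      exact (ENNReal.ofReal_lt_ofReal_iff (by norm_num)).2 (by norm_num)
    refine lt_of_lt_of_le h12 (le_sSup ⟨2, by norm_num, ?_, rfl⟩)
    have hc : (0 : ℝ≥0∞) < ENNReal.ofReal (1 / 16) := ENNReal.ofReal_pos.2 (by norm_num)
    refine lt_of_lt_of_le hc (le_iInf₂ fun S hS => ?_)
    have hSc : 0 < S.card := Finset.card_pos.2 hS
    have hpos : (0 : ℝ) < (S.card : ℝ) ^ (((2 : ℝ) - 1) / 2) :=
      Real.rpow_pos_of_pos (by exact_mod_cast hSc) _
    rw [ENNReal.le_div_iff_mul_le (Or.inl (ENNReal.ofReal_pos.2 hpos).ne')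
      (Or.inl ENNReal.ofReal_ne_top), ← ENNReal.ofReal_mul (by norm_num)]
    set n : ℕ := Nat.log 2 S.card + 1 with hn
    have h1 : S.card < 2 ^ n := Nat.lt_pow_succ_log_self (by norm_num) _
    have h2 : 2 ^ n ≤ 2 * S.card := by
      rw [hn, pow_succ, mul_comm]
      exact Nat.mul_le_mul_left 2 (Nat.pow_log_le_self 2 hSc.ne')
    have h3 : 2 * S.card ≤ (B n).card := by
      refine le_trans ?_ (hcard n)
      rw [pow_succ, mul_comm]
      exact Nat.mul_le_mul_right 2 h1.le
    have h4 : (S.card : ℝ≥0∞) * (w n * 2⁻¹) ≤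
        Pool.Agent.Results.MP_7c03a7_pr.DimGtOne.boundary ν S := by
      unfold Pool.Agent.Results.MP_7c03a7_pr.DimGtOne.boundary
      rw [← nsmul_eq_mul, ← Finset.sum_const]
      exact Finset.sum_le_sum fun g _ => boundary_ge B hB S n h3 g
    refine le_trans ?_ h4
    have h5 : (S.card : ℝ≥0∞) * (w n * 2⁻¹) =
        ENNReal.ofReal ((S.card : ℝ) * (1 / 4 * (3 / 4) ^ n * (1 / 2))) := by
      unfold w
      rw [ENNReal.ofReal_mul (p := (S.card : ℝ)) (by positivity), ENNReal.ofReal_natCast,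
        ENNReal.ofReal_mul (p := 1 / 4 * (3 / 4) ^ n) (by positivity)]
      congr 2
      rw [one_div, ENNReal.ofReal_inv_of_pos (by norm_num)]
      norm_num
    rw [h5]
    apply ENNReal.ofReal_le_ofReal
    have e1 : (((2 : ℝ) - 1) / 2) = 1 / 2 := by norm_num
    rw [e1, ← Real.sqrt_eq_rpow]
    set x : ℝ := (S.card : ℝ) with hx
    have hx0 : 0 < x := by rw [hx]; exact_mod_cast hSc
    have h2' : (2 : ℝ) ^ n ≤ 2 * x := by rw [hx]; exact_mod_cast h2
    have h6 : (x * (3 / 4) ^ n) ^ 2 ≥ x / 2 := by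
      have h7 : (x * (3 / 4) ^ n) ^ 2 = x * (x * (9 / 16) ^ n) := by
        rw [mul_pow, ← pow_mul, mul_comm n 2, pow_mul]
        norm_num
        ring
      rw [h7]
      have h8 : (1 : ℝ) / 2 ≤ x * (9 / 16) ^ n := by
        have h9 : (2 : ℝ) ^ n * (9 / 16) ^ n ≤ 2 * x * (9 / 16) ^ n := by gcongr
        rw [← mul_pow] at h9
        have h10 : (1 : ℝ) ≤ (2 * (9 / 16)) ^ n := one_le_pow₀ (by norm_num)
        linarith
      nlinarith
    have h11 : Real.sqrt (x / 2) ≤ x * (3 / 4) ^ n := by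
      rw [Real.sqrt_le_left (by positivity)]
      exact h6
    have h12 : Real.sqrt x ≤ 2 * Real.sqrt (x / 2) := by
      have : Real.sqrt x = Real.sqrt 2 * Real.sqrt (x / 2) := by
        rw [← Real.sqrt_mul (by norm_num)]
        congr 1
        ring
      rw [this]
      have h13 : Real.sqrt 2 ≤ 2 := by
        rw [Real.sqrt_le_left (by norm_num)]; norm_num
      exact mul_le_mul_of_nonneg_right h13 (Real.sqrt_nonneg _)
    nlinarith
  exact key

end Pool.Agent.Results.MP_9aa340_pr.FiniteThreshold
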